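import Mathlib
import Pool.Agent.Q223.FC.F
import Pool.Agent.Q223.FC.G7

/-!
# Flexible catalysis is the same as standard catalysis

Pure bipartite states are given by their Schmidt vectors, and `ψ → φ` is possible in LOCC iff the
Schmidt vector of `ψ` is majorised by that of `φ`. We prove `Cat_LOCC^(f) = Cat_LOCC`: infinite sets
of catalysts give nothing beyond one fixed catalyst. The proof shows that a flexibly catalysable
pair satisfies the strict inequalities of Klimesh and Turgut, and proves that these suffice.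
-/

set_option autoImplicit false

namespace Pool.Agent.Results.MP_261b1b_mp.FlexibleEqualsStandard

open Finset

/-- a pure bipartite state, given by its Schmidt vector -/
structure State where
  d : ℕ
  v : Fin d → ℝ
  nonneg : ∀ i, 0 ≤ v i
  sum_one : ∑ i, v i = 1

/-- `v` is majorised by `w` (nonnegative vectors, zeros may be appended): the sum of any `m`
entries of `v` is at most the sum of some at most `m` entries of `w`, and the totals agree -/
def Majorised {ι κ : Type} [Fintype ι] [Fintype κ] (v : ι → ℝ) (w : κ → ℝ) : Prop :=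
  (∀ S : Finset ι, ∃ T : Finset κ, T.card ≤ S.card ∧ ∑ i ∈ S, v i ≤ ∑ j ∈ T, w j) ∧
    ∑ i, v i = ∑ j, w j

/-- `ψ ⊗ η → φ ⊗ η'` is possible in LOCC -/
def LOCC (ψ η φ η' : State) : Prop :=
  Majorised (fun p : Fin ψ.d × Fin η.d => ψ.v p.1 * η.v p.2)
    (fun p : Fin φ.d × Fin η'.d => φ.v p.1 * η'.v p.2)

/-- standard catalysis: `(ψ, φ) ∈ Cat_LOCC` -/
def Cat (ψ φ : State) : Prop := ∃ η : State, LOCC ψ η φ η

/-- flexible catalysis by the set `S`: `(ψ, φ) ∈ Cat_LOCC^(f)(S)` -/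
def CatS (S : Set State) (ψ φ : State) : Prop := ∀ η ∈ S, ∃ η' ∈ S, LOCC ψ η φ η'

/-- flexible catalysis: `(ψ, φ) ∈ Cat_LOCC^(f)`, the sets may be infinite -/
def CatF (ψ φ : State) : Prop := ∃ S : Set State, S.Nonempty ∧ CatS S ψ φ

open Classical in
/-- the same nonzero Schmidt coefficients -/
def Same (ψ φ : State) : Prop :=
  ∀ t : ℝ, 0 < t →
    (univ.filter (fun i => ψ.v i = t)).card = (univ.filter (fun j => φ.v j = t)).card

open Classical in
/-- the number of nonzero Schmidt coefficients -/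
noncomputable def rank (ψ : State) : ℕ := (univ.filter (fun i => ψ.v i ≠ 0)).card

open Classical in
/-- the strict inequalities of Klimesh and Turgut -/
def KT (ψ φ : State) : Prop :=
  (∀ r : ℝ, 1 < r → ∑ i, ψ.v i ^ r < ∑ j, φ.v j ^ r) ∧
  (∑ j, -(φ.v j * Real.log (φ.v j)) < ∑ i, -(ψ.v i * Real.log (ψ.v i))) ∧
  (∀ r : ℝ, 0 < r → r < 1 → ∑ j, φ.v j ^ r < ∑ i, ψ.v i ^ r) ∧
  (rank φ < rank ψ ∨ (rank φ = rank ψ ∧
    ∑ j ∈ univ.filter (fun j => φ.v j ≠ 0), Real.log (φ.v j) <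
      ∑ i ∈ univ.filter (fun i => ψ.v i ≠ 0), Real.log (ψ.v i) ∧
    ∀ r : ℝ, r < 0 → ∑ i ∈ univ.filter (fun i => ψ.v i ≠ 0), ψ.v i ^ r <
      ∑ j ∈ univ.filter (fun j => φ.v j ≠ 0), φ.v j ^ r))

open Pool.Agent.Q223.FC in
theorem main (ψ φ : State) (h : CatF ψ φ) : Same ψ φ ∨ KT ψ φ := by
  obtain ⟨S, ⟨η₀, hη₀⟩, hS⟩ := h
  unfold CatS at hS
  choose! nx hnx hnxm using hS
  set f : ℕ → State := fun n => nx^[n] η₀ with hf
  have hmem : ∀ n, f n ∈ S := by
    intro n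
    induction n with
    | zero => exact hη₀
    | succ n ih =>
      rw [hf]
      simp only [Function.iterate_succ_apply']
      exact hnx _ ih
  have hch : ∀ n, LOCC ψ (f n) φ (f (n + 1)) := by
    intro n
    have : f (n + 1) = nx (f n) := by
      rw [hf]; simp only [Function.iterate_succ_apply']
    rw [this]
    exact hnxm _ (hmem n)
  have h1 := chain_conditions (x := ψ.v) (y := φ.v) (γ := fun n => Fin (f n).d)
    (e := fun n => (f n).v) ⟨ψ.nonneg, ψ.sum_one⟩ ⟨φ.nonneg, φ.sum_one⟩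
    (fun n => ⟨(f n).nonneg, (f n).sum_one⟩) (fun n => Maj.toP (hch n))
  rcases h1 with h | h
  · exact Or.inl h
  · right
    refine ⟨h.1, ?_, h.2.2.1, h.2.2.2⟩
    have := h.2.1
    simpa only [Real.negMulLog, neg_mul] using this

open Pool.Agent.Q223.FC in
theorem same_cat (ψ φ : State) (h : Same ψ φ) : Cat ψ φ := by
  refine ⟨⟨1, fun _ => 1, fun _ => zero_le_one, by simp⟩, ?_⟩
  have h1 : Maj ψ.v φ.v := maj_of_same ψ.nonneg h (ψ.sum_one.trans φ.sum_one.symm)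
  refine ⟨fun S => ?_, ?_⟩
  · obtain ⟨T, hT, hTS⟩ := h1.1 (S.image Prod.fst)
    refine ⟨T ×ˢ univ, ?_, ?_⟩
    · rw [card_product, card_univ, Fintype.card_fin, mul_one]
      exact hT.trans card_image_le
    · have e1 : ∑ p ∈ S, ψ.v p.1 * 1 = ∑ i ∈ S.image Prod.fst, ψ.v i := by
        rw [sum_image]
        · simp
        · rintro ⟨a, b⟩ _ ⟨a', b'⟩ _ hab
          exact Prod.ext hab (Subsingleton.elim (α := Fin 1) b b')
      have e2 : ∑ p ∈ T ×ˢ (univ : Finset (Fin 1)), φ.v p.1 * 1 = ∑ j ∈ T, φ.v j := by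
        rw [sum_product]
        simp
      show ∑ p ∈ S, ψ.v p.1 * 1 ≤ ∑ p ∈ T ×ˢ (univ : Finset (Fin 1)), φ.v p.1 * 1
      rw [e1, e2]
      exact hTS
  · show ∑ p : Fin ψ.d × Fin 1, ψ.v p.1 * 1 = ∑ p : Fin φ.d × Fin 1, φ.v p.1 * 1
    rw [Fintype.sum_prod_type, Fintype.sum_prod_type]
    simp [ψ.sum_one, φ.sum_one]

open Pool.Agent.Q223.FC in
theorem kt_cat (ψ φ : State) (h : KT ψ φ) : Cat ψ φ := by
  obtain ⟨D, g, hg, hm⟩ := KT_suff (x := ψ.v) (y := φ.v) ⟨ψ.nonneg, ψ.sum_one⟩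
    ⟨φ.nonneg, φ.sum_one⟩
    ⟨h.1, by simpa only [Real.negMulLog, neg_mul] using h.2.1, h.2.2.1, h.2.2.2⟩
  exact ⟨⟨D, g, hg.1, hg.2⟩, hm⟩

theorem cat_catF (ψ φ : State) (h : Cat ψ φ) : CatF ψ φ := by
  obtain ⟨η, hη⟩ := h
  exact ⟨{η}, ⟨η, rfl⟩, fun η₁ h₁ => ⟨η, rfl, by rw [Set.mem_singleton_iff.1 h₁]; exact hη⟩⟩

/-- `Cat_LOCC^(f) = Cat_LOCC`: for every nonempty set `S` of states, finite or infinite, flexible
catalysis by `S` implies catalysis by one fixed state; and both relations hold iff the Schmidt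
coefficients agree or the strict inequalities `KT` hold. -/
theorem result :
    (∀ ψ φ : State, CatF ψ φ ↔ Cat ψ φ) ∧
    (∀ ψ φ : State, Cat ψ φ ↔ (Same ψ φ ∨ KT ψ φ)) := by
  have h1 : ∀ ψ φ : State, Same ψ φ ∨ KT ψ φ → Cat ψ φ := fun ψ φ h =>
    h.elim (same_cat ψ φ) (kt_cat ψ φ)
  exact ⟨fun ψ φ => ⟨fun h => h1 ψ φ (main ψ φ h), cat_catF ψ φ⟩,
    fun ψ φ => ⟨fun h => main ψ φ (cat_catF ψ φ h), h1 ψ φ⟩⟩

end Pool.Agent.Results.MP_261b1b_mp.FlexibleEqualsStandard
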